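import Pool.Agent.V11235.TP.Loc

/-!
# Few positions with small tail between two places
-/

set_option autoImplicit false

open Finset

namespace Pool.Agent.V11235.TP

open Pool.Agent.H394R2.Ones
open Pool.Agent.H820R3.DG

/-- counting near the ends of the blocks, from `N0` on -/
theorem count_loc (P Bd : ℕ → Prop) [DecidablePred P] [DecidablePred Bd] (a X N0 : ℕ)
    (δ : ℝ) (hδ : 0 ≤ δ) (hP0 : P 0)
    (h : ∀ m j j' : ℕ, j ≤ m → m < j' → j' ≤ X → P j → P j' →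
      (∀ k, j < k → k < j' → ¬ P k) →
      Bd m → m < j + a ∨ (j' : ℝ) ≤ m + a + δ * ((j' : ℝ) - j)) :
    ∀ n j' : ℕ, N0 ≤ n → n ≤ j' → j' ≤ X → P j' → (∀ k, n ≤ k → k < j' → ¬ P k) →
      (((Ico N0 n).filter Bd).card : ℝ) ≤
        2 * a * (((Ioc N0 n).filter P).card : ℝ) + 4 * a + 1 + δ * j' := by
  classical
  intro n j' hN0n hnj' hX hPj' hz
  have hne : ((range (N0 + 1)).filter P).Nonempty := ⟨0, mem_filter.mpr ⟨by simp, hP0⟩⟩
  set j0 := ((range (N0 + 1)).filter P).max' hne with hj0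
  have hj0m := mem_filter.mp (max'_mem _ hne)
  rw [← hj0] at hj0m
  have hj0N : j0 < N0 + 1 := mem_range.mp hj0m.1
  have hmax : ∀ k, k ≤ N0 → P k → k ≤ j0 := by
    intro k hk hPk
    exact le_max' _ k (mem_filter.mpr ⟨mem_range.mpr (by omega), hPk⟩)
  have h1 := count_blocks2 (fun k => P k ∧ j0 ≤ k) Bd (N0 + 1) a X δ hδ
    ⟨j0, hj0N, hj0m.2, le_rfl⟩ (by
      intro m j j' _ h2 h3 h4 h5 h6 h7 h8
      exact h m j j' h2 h3 h4 h5.1 h6.1 (fun k hk1 hk2 hPk => h7 k hk1 hk2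
        ⟨hPk, h5.2.trans hk1.le⟩) h8) n j' hnj' hX ⟨hPj', by omega⟩
    (fun k hk1 hk2 hPk => hz k hk1 hk2 hPk.1)
  have h2 : ((range n).filter (fun k => P k ∧ j0 ≤ k)).card ≤ ((Ioc N0 n).filter P).card + 1 := by
    have h3 : (range n).filter (fun k => P k ∧ j0 ≤ k) ⊆ insert j0 ((Ioc N0 n).filter P) := by
      intro k hk
      obtain ⟨hk1, hk2, hk3⟩ := mem_filter.mp hk
      have hk4 := mem_range.mp hk1
      rw [mem_insert]
      rcases Nat.lt_or_ge N0 k with h4 | h4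
      · right
        exact mem_filter.mpr ⟨mem_Ioc.mpr ⟨h4, hk4.le⟩, hk2⟩
      · left
        exact le_antisymm (hmax k h4 hk2) hk3
    exact (card_le_card h3).trans (card_insert_le _ _)
  have h3 : ((Ico N0 n).filter Bd).card ≤
      ((range n).filter (fun m => N0 + 1 ≤ m ∧ Bd m)).card + 1 := by
    have h4 : (Ico N0 n).filter Bd ⊆ insert N0 ((range n).filter (fun m => N0 + 1 ≤ m ∧ Bd m)) := by
      intro k hk
      obtain ⟨hk1, hk2⟩ := mem_filter.mp hk
      obtain ⟨hk3, hk4⟩ := mem_Ico.mp hk1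
      rw [mem_insert]
      rcases Nat.lt_or_ge N0 k with h4 | h4
      · right
        exact mem_filter.mpr ⟨mem_range.mpr hk4, h4, hk2⟩
      · left
        omega
    exact (card_le_card h4).trans (card_insert_le _ _)
  have h2' : (((range n).filter (fun k => P k ∧ j0 ≤ k)).card : ℝ) ≤
      ((Ioc N0 n).filter P).card + 1 := by exact_mod_cast h2
  have h3' : (((Ico N0 n).filter Bd).card : ℝ) ≤
      ((range n).filter (fun m => N0 + 1 ≤ m ∧ Bd m)).card + 1 := by exact_mod_cast h3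
  have ha : (0 : ℝ) ≤ a := Nat.cast_nonneg _
  have h4 : 2 * (a : ℝ) * (((range n).filter (fun k => P k ∧ j0 ≤ k)).card : ℝ) ≤
      2 * a * (((Ioc N0 n).filter P).card + 1) := mul_le_mul_of_nonneg_left h2' (by positivity)
  linarith

section
variable {b : ℕ} {y : ℝ}

/-- few positions with small tail between two places -/
theorem bad_loc (hb : 2 ≤ b) (hy0 : 0 < y) (hy1 : y < 1) (halg : IsAlgebraic ℚ y)
    (hirr : Irrational y) (d : ℕ) (c0 δ : ℝ) (hd : 1 ≤ d) (hδ : 0 < δ) :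
    ∃ C : ℝ, 0 ≤ C ∧ ∀ n m N0 : ℕ, d * n ≤ N0 → n ≤ m → N0 ≤ m →
      (((Ico N0 m).filter (fun k => TT b y (d + 1) k ≤ c0 * TT b y d k)).card : ℝ) ≤
        C * (1 + Real.log ((m : ℝ) + 1)) * ((KK b y m : ℝ) ^ d - (KK b y n : ℝ) ^ d + 1) +
          δ * m := by
  obtain ⟨e, rfl⟩ : ∃ e, d = e + 1 := ⟨d - 1, by omega⟩
  have hb1 : (1 : ℝ) < b := by exact_mod_cast (by omega : 1 < b)
  have hb2 : (2 : ℝ) ≤ b := by exact_mod_cast hb
  have hb0 : (0 : ℝ) < b := by linarith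
  have hlogb : 0 < Real.log b := Real.log_pos hb1
  set c : ℝ := max c0 0 with hc
  have hc0 : 0 ≤ c := le_max_right _ _
  set δ' : ℝ := min δ 1 / 2 with hδ'
  have hδ'0 : 0 < δ' := by positivity
  have hδ'1 : δ' ≤ 1 := by
    have : min δ 1 ≤ 1 := min_le_right _ _
    rw [hδ']; linarith
  have hδ'2 : 2 * δ' ≤ δ := by
    have : min δ 1 ≤ δ := min_le_left _ _
    rw [hδ']; linarith
  obtain ⟨L0, hpos⟩ := bad_pos2 hb hy0 hy1 halg hirr e c hc0 δ' hδ'0 hδ'1
  obtain ⟨L1, hgap⟩ := gap hb hy0 halg hirr (1 / 2) (by norm_num) (by norm_num)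
  set A0 : ℝ := Real.log ((c + 1) * (3 ^ (e + 1) * (2 * b) ^ e)) with hA0
  have hA1 : 1 ≤ (c + 1) * (3 ^ (e + 1) * (2 * (b : ℝ)) ^ e) := by
    have h1 : (1 : ℝ) ≤ 3 ^ (e + 1) := one_le_pow₀ (by norm_num)
    have h2 : (1 : ℝ) ≤ (2 * (b : ℝ)) ^ e := one_le_pow₀ (by linarith)
    have h3 : (1 : ℝ) ≤ 3 ^ (e + 1) * (2 * (b : ℝ)) ^ e := one_le_mul_of_one_le_of_one_le h1 h2
    exact one_le_mul_of_one_le_of_one_le (by linarith) h3
  have hA00 : 0 ≤ A0 := Real.log_nonneg hA1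
  set C5 : ℝ := (A0 + e) / Real.log b + 3 + L0 with hC5
  have hC50 : 0 ≤ C5 := by positivity
  refine ⟨4 * C5 + L1 + 3, by positivity, fun n0 n N0 hN0 hn0n hN0n => ?_⟩
  have hℓ : 0 ≤ Real.log ((n : ℝ) + 1) := Real.log_nonneg (by
    have : (0 : ℝ) ≤ n := Nat.cast_nonneg _
    linarith)
  set ℓ := Real.log ((n : ℝ) + 1) with hℓdef
  have hn0 : (0 : ℝ) ≤ n := Nat.cast_nonneg _
  have hnew := rr_new (xx b y) (e + 1) n0 n N0 hN0 hn0n
  rw [← KK_FS, ← KK_FS] at hnew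
  have hnewR : ((∑ k ∈ Ioc N0 n, rr (xx b y) (e + 1) k : ℕ) : ℝ) ≤
      (KK b y n : ℝ) ^ (e + 1) - (KK b y n0 : ℝ) ^ (e + 1) := by
    have : ((∑ k ∈ Ioc N0 n, rr (xx b y) (e + 1) k : ℕ) : ℝ) + (KK b y n0 : ℝ) ^ (e + 1) ≤
      (KK b y n : ℝ) ^ (e + 1) := by exact_mod_cast hnew
    linarith
  set F : ℝ := (KK b y n : ℝ) ^ (e + 1) - (KK b y n0 : ℝ) ^ (e + 1) with hF
  have hF0 : 0 ≤ F := le_trans (Nat.cast_nonneg _) hnewR
  have hL1 : (0 : ℝ) ≤ L1 := Nat.cast_nonneg _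
  -- reduce to c ≥ 0
  have hmono : (((Ico N0 n).filter
      (fun m => TT b y (e + 1 + 1) m ≤ c0 * TT b y (e + 1) m)).card : ℝ)
      ≤ (((Ico N0 n).filter (fun m => TT b y (e + 2) m ≤ c * TT b y (e + 1) m)).card : ℝ) := by
    have : ((Ico N0 n).filter (fun m => TT b y (e + 1 + 1) m ≤ c0 * TT b y (e + 1) m)).card
        ≤ ((Ico N0 n).filter (fun m => TT b y (e + 2) m ≤ c * TT b y (e + 1) m)).card := by
      apply card_le_card
      intro m hm
      obtain ⟨hm1, hm2⟩ := mem_filter.mp hm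
      refine mem_filter.mpr ⟨hm1, hm2.trans ?_⟩
      exact mul_le_mul_of_nonneg_right (le_max_left _ _) (TT_nonneg hb hy0 hy1 _ _)
    exact_mod_cast this
  refine hmono.trans ?_
  rcases Nat.lt_or_ge n L1 with hnL | hnL
  · have h1 : ((Ico N0 n).filter (fun m => TT b y (e + 2) m ≤ c * TT b y (e + 1) m)).card ≤ n := by
      refine (card_filter_le _ _).trans ?_
      rw [Nat.card_Ico]
      omega
    have h2 : (((Ico N0 n).filter (fun m => TT b y (e + 2) m ≤ c * TT b y (e + 1) m)).card : ℝ) ≤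
        L1 := by exact_mod_cast (h1.trans hnL.le)
    have h3 : (L1 : ℝ) * 1 * 1 ≤ (4 * C5 + L1 + 3) * (1 + ℓ) * (F + 1) := by
      gcongr
      · linarith
      · linarith
      · linarith
    have h4 : 0 ≤ δ * n := by positivity
    linarith
  -- the parameters
  set X : ℕ := 2 * n + 2 with hX
  set V : ℝ := c * (3 ^ (e + 1) * ((b : ℝ) * X) ^ e) with hV
  have hV0 : 0 ≤ V := by positivity
  have hX1 : (X : ℝ) = 2 * (n + 1) := by rw [hX]; push_cast; ring
  have hV1 : V + 1 ≤ (c + 1) * (3 ^ (e + 1) * (2 * (b : ℝ)) ^ e) * ((n : ℝ) + 1) ^ e := by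
    have h1 : (c + 1) * (3 ^ (e + 1) * (2 * (b : ℝ)) ^ e) * ((n : ℝ) + 1) ^ e =
        V + 3 ^ (e + 1) * ((b : ℝ) * X) ^ e := by
      rw [hV, hX1]
      have : ((b : ℝ) * (2 * (n + 1))) ^ e = (2 * (b : ℝ)) ^ e * ((n : ℝ) + 1) ^ e := by
        rw [← mul_pow]; congr 1; ring
      rw [this]; ring
    rw [h1]
    have h2 : (1 : ℝ) ≤ 3 ^ (e + 1) := one_le_pow₀ (by norm_num)
    have h3 : (1 : ℝ) ≤ ((b : ℝ) * X) ^ e := one_le_pow₀ (by rw [hX1]; nlinarith)
    have h4 : (1 : ℝ) ≤ 3 ^ (e + 1) * ((b : ℝ) * X) ^ e := one_le_mul_of_one_le_of_one_le h2 h3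
    linarith
  have hlogV : Real.log (V + 1) ≤ A0 + e * ℓ := by
    calc Real.log (V + 1) ≤
        Real.log ((c + 1) * (3 ^ (e + 1) * (2 * (b : ℝ)) ^ e) * ((n : ℝ) + 1) ^ e) :=
          Real.log_le_log (by linarith) hV1
      _ = A0 + e * ℓ := by
        rw [Real.log_mul (by linarith) (by positivity), Real.log_pow]
  set a' : ℕ := ⌊Real.log (V + 1) / Real.log b⌋₊ + 1 with ha'
  have hlV0 : 0 ≤ Real.log (V + 1) := Real.log_nonneg (by linarith)
  have ha'1 : V < (b : ℝ) ^ a' := by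
    have h1 : Real.log (V + 1) / Real.log b < a' := by
      rw [ha']; push_cast; exact Nat.lt_floor_add_one _
    rw [div_lt_iff₀ hlogb] at h1
    have h2 : Real.log (V + 1) < Real.log ((b : ℝ) ^ a') := by rw [Real.log_pow]; exact h1
    have h3 := (Real.log_lt_log_iff (by linarith) (by positivity)).mp h2
    linarith
  have ha'2 : (a' : ℝ) + 2 + L0 ≤ C5 * (1 + ℓ) := by
    have h1 : (a' : ℝ) ≤ Real.log (V + 1) / Real.log b + 1 := by
      rw [ha']; push_cast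
      have := Nat.floor_le (div_nonneg hlV0 hlogb.le)
      linarith
    have h2 : Real.log (V + 1) / Real.log b ≤ (A0 + e * ℓ) / Real.log b :=
      div_le_div_of_nonneg_right hlogV hlogb.le
    have h3 : (A0 + e * ℓ) / Real.log b ≤ (A0 + e) / Real.log b * (1 + ℓ) := by
      rw [div_mul_eq_mul_div]
      apply div_le_div_of_nonneg_right _ hlogb.le
      have : (0 : ℝ) ≤ e := Nat.cast_nonneg _
      nlinarith
    have h4 : (0 : ℝ) ≤ L0 := Nat.cast_nonneg _
    have h5 : C5 * (1 + ℓ) = (A0 + e) / Real.log b * (1 + ℓ) + (3 + L0) * (1 + ℓ) := by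
      rw [hC5]; ring
    have h6 : 3 + (L0 : ℝ) ≤ (3 + L0) * (1 + ℓ) := by nlinarith
    linarith
  -- the next element
  obtain ⟨k, hk1, hk2, hk3⟩ := hgap n hnL
  have hkE : 1 ≤ rr (xx b y) (e + 1) k := rr_supp_one e k hk3 (by omega)
  have hex : ∃ k, n ≤ k ∧ 1 ≤ rr (xx b y) (e + 1) k := ⟨k, hk1.le, hkE⟩
  set j' := Nat.find hex with hj'
  have hj'1 := Nat.find_spec hex
  rw [← hj'] at hj'1
  have hj'k : j' ≤ k := Nat.find_min' hex ⟨hk1.le, hkE⟩
  have hj'R : (j' : ℝ) ≤ n + 1 + 1 / 2 * n := by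
    have : (j' : ℝ) ≤ k := by exact_mod_cast hj'k
    linarith
  have hj'X : j' ≤ X := by
    have : (j' : ℝ) ≤ X := by rw [hX1]; linarith
    exact_mod_cast this
  have h1 := count_loc (fun k => 1 ≤ rr (xx b y) (e + 1) k)
    (fun m => TT b y (e + 2) m ≤ c * TT b y (e + 1) m) (a' + 2 + L0) X N0 δ' hδ'0.le
    (rr_zero_pos _) (by
      intro m j j'' h2 h3 h4 h5 _ h7 h8
      rcases hpos a' X ha'1 m j j'' h2 h3 h4 h5 (fun k hk1 hk2 => by
        have := h7 k hk1 hk2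
        omega) h8 with h9 | h9
      · left; omega
      · right
        push_cast
        have : (0 : ℝ) ≤ L0 := Nat.cast_nonneg _
        linarith) n j' hN0n hj'1.1 hj'X hj'1.2 (by
      intro k' hk'1 hk'2 hk'3
      exact Nat.find_min hex hk'2 ⟨hk'1, hk'3⟩)
  have h3 : ((Ioc N0 n).filter (fun k => 1 ≤ rr (xx b y) (e + 1) k)).card ≤
      ∑ k ∈ Ioc N0 n, rr (xx b y) (e + 1) k := by
    rw [card_filter]
    refine sum_le_sum fun i _ => ?_
    split_ifs with h4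
    · exact h4
    · exact Nat.zero_le _
  have h3' : (((Ioc N0 n).filter (fun k => 1 ≤ rr (xx b y) (e + 1) k)).card : ℝ) ≤ F := by
    have : (((Ioc N0 n).filter (fun k => 1 ≤ rr (xx b y) (e + 1) k)).card : ℝ) ≤
      ((∑ k ∈ Ioc N0 n, rr (xx b y) (e + 1) k : ℕ) : ℝ) := by exact_mod_cast h3
    linarith
  push_cast at h1
  have h4 : δ' * j' ≤ δ * n + 1 := by
    have h5 : δ' * j' ≤ δ' * (n + 1 + 1 / 2 * n) := mul_le_mul_of_nonneg_left hj'R hδ'0.le
    have h6 : 2 * δ' * n ≤ δ * n := mul_le_mul_of_nonneg_right hδ'2 hn0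
    have h7 : 0 ≤ δ' * n := by positivity
    nlinarith
  have ha0 : (0 : ℝ) ≤ a' + 2 + L0 := by positivity
  have h5 : 2 * ((a' : ℝ) + 2 + L0) *
      (((Ioc N0 n).filter (fun k => 1 ≤ rr (xx b y) (e + 1) k)).card : ℝ) ≤
      2 * (C5 * (1 + ℓ)) * F := by
    apply mul_le_mul _ h3' (Nat.cast_nonneg _) (by positivity)
    linarith
  have h6 : 4 * ((a' : ℝ) + 2 + L0) ≤ 4 * (C5 * (1 + ℓ)) := by linarith
  have h7 : (L1 + 3) * 1 * 1 ≤ (L1 + 3) * (1 + ℓ) * (F + 1) := by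
    gcongr
    · linarith
    · linarith
  have h8 : (4 * C5 + L1 + 3) * (1 + ℓ) * (F + 1) =
      4 * (C5 * (1 + ℓ)) * F + 4 * (C5 * (1 + ℓ)) + (L1 + 3) * (1 + ℓ) * (F + 1) := by ring
  have h9 : 2 * (C5 * (1 + ℓ)) * F ≤ 4 * (C5 * (1 + ℓ)) * F := by
    have : 0 ≤ (C5 * (1 + ℓ)) * F := by positivity
    linarith
  rw [h8]
  linarith

open Classical in
/-- few dirty positions between two places -/
lemma dirty_loc (hFact : FactStmt) (hb : 2 ≤ b) (hy0 : 0 < y) (hy1 : y < 1)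
    (halg : IsAlgebraic ℚ y) (hirr : Irrational y) (d : ℕ) (c' δ : ℝ) (hδ : 0 < δ) :
    ∃ C : ℝ, 0 ≤ C ∧ ∀ n m N0 : ℕ, (d + 2) * n ≤ N0 → n ≤ m → N0 ≤ m →
      (((Ico N0 m).filter (Dirty b y d c')).card : ℝ) ≤
      C * (1 + Real.log ((m : ℝ) + 1)) *
        (((KK b y m : ℝ) - KK b y n) * (KK b y m : ℝ) ^ d + 1) + δ * m := by
  obtain ⟨C, hC, hCn⟩ := bad_loc hb hy0 hy1 halg hirr (d + 1) c' δ (by omega) hδ
  refine ⟨(d + 1) * C + C + (2 * (d + 1) + 2), by positivity, fun n m N0 hN0 hnm hm => ?_⟩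
  have hN1 : (d + 1) * n ≤ N0 := (Nat.mul_le_mul (by omega) le_rfl).trans hN0
  have h1 := hCn n m N0 hN1 hnm hm
  have hℓ : 0 ≤ Real.log ((m : ℝ) + 1) := Real.log_nonneg (by
    have : (0 : ℝ) ≤ m := Nat.cast_nonneg _
    linarith)
  have hKK : KK b y n ≤ KK b y m := KK_mono hnm
  set f := xx b y with hf
  have hnew := rr_new f (d + 1) n m N0 hN1 hnm
  rw [hf, ← KK_FS, ← KK_FS, ← hf] at hnew
  have hpow := pow_sub_le (KK b y n) (KK b y m) hKK d
  set B := (KK b y m - KK b y n) * KK b y m ^ d with hB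
  have hA0 : ∑ k ∈ Ioc N0 m, rr f (d + 1) k ≤ (d + 1) * B := by omega
  have hIco : Ico N0 m ⊆ insert N0 (Ioc N0 m) := by
    intro k hk
    obtain ⟨h2, h3⟩ := mem_Ico.mp hk
    rw [mem_insert, mem_Ioc]
    omega
  have hA : ((Ico N0 m).filter (fun k => 1 ≤ rr f (d + 1) k)).card ≤ (d + 1) * B + 1 := by
    have h2 : (Ico N0 m).filter (fun k => 1 ≤ rr f (d + 1) k) ⊆
        insert N0 ((Ioc N0 m).filter (fun k => 1 ≤ rr f (d + 1) k)) := by
      intro k hk
      obtain ⟨h2, h3⟩ := mem_filter.mp hk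
      rcases mem_insert.mp (hIco h2) with h4 | h4
      · exact mem_insert.mpr (Or.inl h4)
      · exact mem_insert.mpr (Or.inr (mem_filter.mpr ⟨h4, h3⟩))
    refine (card_le_card h2).trans ((card_insert_le _ _).trans ?_)
    refine Nat.add_le_add_right (le_trans ?_ hA0) 1
    rw [card_filter]
    refine sum_le_sum fun i _ => ?_
    split_ifs with h4
    · exact h4
    · exact Nat.zero_le _
  have hBc : ((Ico N0 m).filter (fun k => ¬ (d + 2).factorial ∣ rr f (d + 2) k)).card ≤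
      (d + 1) * B + 1 := by
    set U : Finset (ℕ × ℕ) := ((range (n + 1)).filter (fun i => 1 ≤ f i)) ×ˢ
      ((Ioc (d * n) m).filter (fun j => 1 ≤ rr f d j)) with hU
    set V : Finset (ℕ × ℕ) := ((Ioc n m).filter (fun i => 1 ≤ f i)) ×ˢ
      ((range (m + 1)).filter (fun j => 1 ≤ rr f d j)) with hV
    have hsub : (Ico N0 m).filter (fun k => ¬ (d + 2).factorial ∣ rr f (d + 2) k) ⊆
        insert N0 ((U ∪ V).image (fun p : ℕ × ℕ => 2 * p.1 + p.2)) := by
      intro k hk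
      obtain ⟨hm1, hm2⟩ := mem_filter.mp hk
      obtain ⟨hm3, hm4⟩ := mem_Ico.mp hm1
      rcases Nat.eq_or_lt_of_le hm3 with h0 | h0
      · exact mem_insert.mpr (Or.inl h0.symm)
      refine mem_insert.mpr (Or.inr ?_)
      have h2 : ∃ i j, 2 * i + j = k ∧ 1 ≤ f i ∧ rr f d j ≠ 0 := by
        by_contra hcon
        push Not at hcon
        exact hm2 (hFact f d k fun i j h3 h4 => hcon i j h3 h4)
      obtain ⟨i, j, h3, h4, h5⟩ := h2
      refine mem_image.mpr ⟨(i, j), ?_, h3⟩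
      rw [mem_union]
      have h6 : 1 ≤ rr f d j := Nat.one_le_iff_ne_zero.mpr h5
      rcases Nat.lt_or_ge n i with h7 | h7
      · right
        rw [hV, mem_product]
        exact ⟨mem_filter.mpr ⟨mem_Ioc.mpr ⟨h7, by omega⟩, h4⟩,
          mem_filter.mpr ⟨mem_range.mpr (by omega), h6⟩⟩
      · left
        rw [hU, mem_product]
        refine ⟨mem_filter.mpr ⟨mem_range.mpr (by omega), h4⟩,
          mem_filter.mpr ⟨mem_Ioc.mpr ⟨?_, by omega⟩, h6⟩⟩
        have : (d + 2) * n = d * n + 2 * n := by ring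
        omega
    have hcf : ∀ (s : Finset ℕ) (g : ℕ → ℕ), (s.filter (fun i => 1 ≤ g i)).card ≤
        ∑ i ∈ s, g i := by
      intro s g
      rw [card_filter]
      refine sum_le_sum fun i _ => ?_
      split_ifs with h
      · exact h
      · exact Nat.zero_le _
    have hUc : U.card ≤ d * B := by
      rw [hU, card_product]
      have h2 := hcf (range (n + 1)) f
      have h3 := hcf (Ioc (d * n) m) (rr f d)
      have h4 := rr_new f d n m (d * n) le_rfl hnm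
      rw [hf, ← KK_FS, ← KK_FS, ← hf] at h4
      have h5 : (∑ i ∈ range (n + 1), f i) = KK b y n := rfl
      rw [h5] at h2
      rcases Nat.eq_zero_or_pos d with hd0 | hd0
      · subst hd0
        simp only [pow_zero] at h4
        have h6 : ((Ioc (0 * n) m).filter (fun j => 1 ≤ rr f 0 j)).card = 0 := by omega
        rw [h6]
        simp
      · obtain ⟨e, rfl⟩ : ∃ e, d = e + 1 := ⟨d - 1, by omega⟩
        have h6 := pow_sub_le (KK b y n) (KK b y m) hKK e
        have h7 : ((Ioc ((e + 1) * n) m).filter (fun j => 1 ≤ rr f (e + 1) j)).card ≤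
            (e + 1) * ((KK b y m - KK b y n) * KK b y m ^ e) := by omega
        calc _ ≤ KK b y m * ((e + 1) * ((KK b y m - KK b y n) * KK b y m ^ e)) :=
              Nat.mul_le_mul (h2.trans hKK) h7
          _ = (e + 1) * B := by rw [hB]; ring
    have hVc : V.card ≤ B := by
      rw [hV, card_product]
      have h2 := hcf (Ioc n m) f
      have h3 := (hcf (range (m + 1)) (rr f d)).trans (rr_all f d m)
      have h4 := FS_Ioc f hnm
      rw [hf, ← KK_FS, ← KK_FS, ← hf] at h4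
      rw [hB]
      refine Nat.mul_le_mul (h2.trans (by omega)) ?_
      exact h3
    refine (card_le_card hsub).trans ((card_insert_le _ _).trans ?_)
    refine Nat.add_le_add_right (card_image_le.trans ((card_union_le _ _).trans ?_)) 1
    calc U.card + V.card ≤ d * B + B := Nat.add_le_add hUc hVc
      _ = (d + 1) * B := by ring
  have hD : ((Ico N0 m).filter (Dirty b y d c')).card ≤
      ((Ico N0 m).filter (fun k => TT b y (d + 1 + 1) k ≤ c' * TT b y (d + 1) k)).card +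
      ((Ico N0 m).filter (fun k => 1 ≤ rr f (d + 1) k)).card +
      ((Ico N0 m).filter (fun k => ¬ (d + 2).factorial ∣ rr f (d + 2) k)).card := by
    refine le_trans (card_le_card ?_) ((card_union_le _ _).trans
      (Nat.add_le_add_right (card_union_le _ _) _))
    intro k hk
    obtain ⟨hm1, hm2⟩ := mem_filter.mp hk
    rw [mem_union, mem_union]
    rcases hm2 with h2 | h2 | h2
    · exact Or.inl (Or.inl (mem_filter.mpr ⟨hm1, h2⟩))
    · exact Or.inl (Or.inr (mem_filter.mpr ⟨hm1, h2⟩))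
    · exact Or.inr (mem_filter.mpr ⟨hm1, h2⟩)
  have hBR : (B : ℝ) = ((KK b y m : ℝ) - KK b y n) * (KK b y m : ℝ) ^ d := by
    rw [hB]; push_cast [Nat.cast_sub hKK]; ring
  rw [← hBR]
  have hB0 : (0 : ℝ) ≤ B := Nat.cast_nonneg _
  have hD' : (((Ico N0 m).filter (Dirty b y d c')).card : ℝ) ≤
      ((Ico N0 m).filter (fun k => TT b y (d + 1 + 1) k ≤ c' * TT b y (d + 1) k)).card +
      ((d + 1) * B + 1) + ((d + 1) * B + 1) := by
    exact_mod_cast hD.trans (Nat.add_le_add (Nat.add_le_add le_rfl hA) hBc)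
  have hFB : (KK b y m : ℝ) ^ (d + 1) - (KK b y n : ℝ) ^ (d + 1) + 1 ≤ (d + 1) * B + 1 := by
    have : (KK b y m : ℝ) ^ (d + 1) ≤ (KK b y n : ℝ) ^ (d + 1) + (d + 1) * B := by
      exact_mod_cast hpow
    linarith
  have h5 : (((Ico N0 m).filter
      (fun k => TT b y (d + 1 + 1) k ≤ c' * TT b y (d + 1) k)).card : ℝ) ≤
      C * (1 + Real.log ((m : ℝ) + 1)) * ((d + 1) * B + 1) + δ * m := by
    refine le_trans ?_ (h1.trans (add_le_add (mul_le_mul_of_nonneg_left hFB (by positivity))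
      le_rfl))
    apply le_of_eq
    congr!
  have hℓ1 : 1 ≤ 1 + Real.log ((m : ℝ) + 1) := by linarith
  set L := 1 + Real.log ((m : ℝ) + 1) with hL
  have hd0 : (0 : ℝ) ≤ d := Nat.cast_nonneg _
  have e1 : C * L * ((d + 1) * B + 1) ≤ ((d + 1) * C + C) * L * (B + 1) := by
    have : 0 ≤ C * L := by positivity
    have e2 : ((d + 1) * C + C) * L * (B + 1) - C * L * ((d + 1) * B + 1) =
      C * L * (B + (d + 1)) := by ring
    have e3 : 0 ≤ C * L * (B + ((d : ℝ) + 1)) := by positivity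
    linarith
  have e4 : 2 * ((d + 1) * (B : ℝ) + 1) ≤ (2 * (d + 1) + 2) * L * (B + 1) := by
    have e5 : (2 * ((d : ℝ) + 1) + 2) * 1 * (B + 1) ≤ (2 * (d + 1) + 2) * L * (B + 1) := by
      gcongr
    have e6 : 2 * (((d : ℝ) + 1) * (B : ℝ) + 1) ≤ (2 * (d + 1) + 2) * 1 * (B + 1) := by
      nlinarith
    linarith
  have e7 : ((d + 1) * C + C + (2 * (d + 1) + 2)) * L * ((B : ℝ) + 1) =
    ((d + 1) * C + C) * L * (B + 1) + (2 * (d + 1) + 2) * L * (B + 1) := by ring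
  rw [e7]
  linarith

end

end Pool.Agent.V11235.TP
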