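import Pool.Agent.H820R3.DG.Deg

/-!
# Representation numbers, tails and clean windows between two places
-/

set_option autoImplicit false

open Finset

namespace Pool.Agent.V11235.TP

open Pool.Agent.H394R2.Ones
open Pool.Agent.H820R3.DG

/-- the sum of the first values -/
def FS (f : ℕ → ℕ) (n : ℕ) : ℕ := ∑ i ∈ range (n + 1), f i

lemma FS_mono (f : ℕ → ℕ) {m n : ℕ} (h : m ≤ n) : FS f m ≤ FS f n := by
  unfold FS
  exact sum_le_sum_of_subset (range_mono (by omega))

lemma FS_Ioc (f : ℕ → ℕ) {n m : ℕ} (h : n ≤ m) : FS f n + ∑ i ∈ Ioc n m, f i = FS f m := by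
  induction m, h using Nat.le_induction with
  | base => simp
  | succ m hm ih =>
    have e : Ioc n (m + 1) = insert (m + 1) (Ioc n m) := by
      ext x; simp only [mem_Ioc, mem_insert]; omega
    rw [e, sum_insert (by simp)]
    unfold FS at ih ⊢
    rw [sum_range_succ _ (m + 1), ← ih]
    omega

lemma rr_all (f : ℕ → ℕ) (d n : ℕ) : ∑ m ∈ range (n + 1), rr f d m ≤ FS f n ^ d := by
  induction d with
  | zero =>
    rw [sum_range_succ']
    simp [rr]
  | succ d ih =>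
    have h1 := pair_sum n (fun i j => f i * rr f d j)
    have h2 : ∑ m ∈ range (n + 1), rr f (d + 1) m ≤
        ∑ p ∈ range (n + 1) ×ˢ range (n + 1), f p.1 * rr f d p.2 := by
      rw [h1]
      simp only [rr_succ]
      exact Nat.le_add_right _ _
    refine h2.trans ?_
    rw [sum_product]
    simp only [← mul_sum]
    rw [← sum_mul, pow_succ, mul_comm (FS f n ^ d)]
    exact Nat.mul_le_mul le_rfl ih

/-- sums over pairs with a large sum -/
lemma pair_split (n m N0 N1 : ℕ) (g : ℕ → ℕ → ℕ) (h : N1 + n ≤ N0) :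
    ∑ k ∈ Ioc N0 m, ∑ p ∈ antidiagonal k, g p.1 p.2 ≤
      ∑ i ∈ range (n + 1), ∑ j ∈ Ioc N1 m, g i j +
      ∑ i ∈ Ioc n m, ∑ j ∈ range (m + 1), g i j := by
  classical
  have h1 : ∑ k ∈ Ioc N0 m, ∑ p ∈ antidiagonal k, g p.1 p.2 =
      ∑ p ∈ (range (m + 1) ×ˢ range (m + 1)).filter (fun p : ℕ × ℕ => N0 < p.1 + p.2 ∧
        p.1 + p.2 ≤ m), g p.1 p.2 := by
    rw [← sum_fiberwise_of_maps_to (s := (range (m + 1) ×ˢ range (m + 1)).filter
      (fun p : ℕ × ℕ => N0 < p.1 + p.2 ∧ p.1 + p.2 ≤ m)) (t := Ioc N0 m)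
      (g := fun p : ℕ × ℕ => p.1 + p.2) (by
        intro p hp
        obtain ⟨_, h2⟩ := mem_filter.mp hp
        exact mem_Ioc.mpr h2)]
    refine sum_congr rfl fun k hk => ?_
    obtain ⟨hk1, hk2⟩ := mem_Ioc.mp hk
    refine sum_congr ?_ fun _ _ => rfl
    ext p
    simp only [HasAntidiagonal.mem_antidiagonal, mem_filter, mem_product, mem_range]
    omega
  have h2 : (range (m + 1) ×ˢ range (m + 1)).filter (fun p : ℕ × ℕ => N0 < p.1 + p.2 ∧
      p.1 + p.2 ≤ m) ⊆ (range (n + 1) ×ˢ Ioc N1 m) ∪ (Ioc n m ×ˢ range (m + 1)) := by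
    intro p hp
    simp only [mem_filter, mem_product, mem_range] at hp
    simp only [mem_union, mem_product, mem_range, mem_Ioc]
    omega
  rw [h1]
  refine (sum_le_sum_of_subset h2).trans ?_
  rw [sum_union]
  · rw [sum_product, sum_product]
  · rw [disjoint_left]
    intro p hp1 hp2
    simp only [mem_product, mem_range, mem_Ioc] at hp1 hp2
    omega

/-- representations by tuples not all of whose entries are at most `n` -/
lemma rr_new (f : ℕ → ℕ) (d : ℕ) : ∀ n m N0 : ℕ, d * n ≤ N0 → n ≤ m →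
    ∑ k ∈ Ioc N0 m, rr f d k + FS f n ^ d ≤ FS f m ^ d := by
  induction d with
  | zero =>
    intro n m N0 _ _
    have : ∑ k ∈ Ioc N0 m, rr f 0 k = 0 := by
      apply sum_eq_zero
      intro k hk
      have := (mem_Ioc.mp hk).1
      simp only [rr]
      rw [if_neg (by omega)]
    rw [this]
    simp
  | succ d ih =>
    intro n m N0 h0 hnm
    have h1 := pair_split n m N0 (d * n) (fun i j => f i * rr f d j) (by
      have : (d + 1) * n = d * n + n := by ring
      omega)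
    have h2 : ∑ k ∈ Ioc N0 m, rr f (d + 1) k ≤
        FS f n * ∑ j ∈ Ioc (d * n) m, rr f d j + (∑ i ∈ Ioc n m, f i) * FS f m ^ d := by
      simp only [rr_succ]
      refine h1.trans ?_
      simp only [← mul_sum]
      rw [← sum_mul, ← sum_mul]
      exact Nat.add_le_add le_rfl (Nat.mul_le_mul le_rfl (rr_all f d m))
    have h3 := ih n m (d * n) le_rfl hnm
    have h4 := FS_Ioc f hnm
    calc ∑ k ∈ Ioc N0 m, rr f (d + 1) k + FS f n ^ (d + 1)
        ≤ FS f n * ∑ j ∈ Ioc (d * n) m, rr f d j + (∑ i ∈ Ioc n m, f i) * FS f m ^ d +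
          FS f n ^ (d + 1) := Nat.add_le_add_right h2 _
      _ = FS f n * (∑ j ∈ Ioc (d * n) m, rr f d j + FS f n ^ d) +
          (∑ i ∈ Ioc n m, f i) * FS f m ^ d := by ring
      _ ≤ FS f n * FS f m ^ d + (∑ i ∈ Ioc n m, f i) * FS f m ^ d :=
          Nat.add_le_add_right (Nat.mul_le_mul le_rfl h3) _
      _ = (FS f n + ∑ i ∈ Ioc n m, f i) * FS f m ^ d := by ring
      _ = FS f m ^ (d + 1) := by rw [h4]; ring

lemma pow_sub_le (a c : ℕ) (h : a ≤ c) (d : ℕ) : c ^ (d + 1) ≤ a ^ (d + 1) + (d + 1) * ((c - a) * c ^ d) := by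
  obtain ⟨t, rfl⟩ := Nat.exists_eq_add_of_le h
  rw [Nat.add_sub_cancel_left]
  induction d with
  | zero => simp
  | succ d ih =>
    have h1 : a ^ (d + 1) ≤ (a + t) ^ (d + 1) := Nat.pow_le_pow_left h _
    calc (a + t) ^ (d + 1 + 1) = (a + t) * (a + t) ^ (d + 1) := by ring
      _ ≤ (a + t) * (a ^ (d + 1) + (d + 1) * (t * (a + t) ^ d)) := Nat.mul_le_mul le_rfl ih
      _ = a ^ (d + 1 + 1) + t * a ^ (d + 1) + (d + 1) * (t * (a + t) ^ (d + 1)) := by ring
      _ ≤ a ^ (d + 1 + 1) + t * (a + t) ^ (d + 1) + (d + 1) * (t * (a + t) ^ (d + 1)) := by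
          gcongr
      _ = _ := by ring

section
variable {b : ℕ} {y : ℝ}

lemma KK_FS (n : ℕ) : KK b y n = FS (xx b y) n := rfl

lemma tail_sum (d : ℕ) {N0 m : ℕ} (h : N0 ≤ m) :
    ((b : ℝ) - 1) * ∑ N ∈ Ico N0 m, TT b y d N + TT b y d N0 =
      TT b y d m + ∑ k ∈ Ioc N0 m, (rr (xx b y) d k : ℝ) := by
  induction m, h using Nat.le_induction with
  | base => simp
  | succ m hm ih =>
    have e : Ioc N0 (m + 1) = insert (m + 1) (Ioc N0 m) := by
      ext x; simp only [mem_Ioc, mem_insert]; omega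
    rw [e, sum_insert (by simp), sum_Ico_succ_top hm, TT_succ]
    linarith

/-- the sum of the tails between two places -/
lemma tail_le (hb : 2 ≤ b) (hy0 : 0 < y) (hy1 : y < 1) (d : ℕ) {n m N0 : ℕ} (h : d * n ≤ N0)
    (hnm : n ≤ m) (hm : N0 ≤ m) :
    ((b : ℝ) - 1) * ∑ N ∈ Ico N0 m, TT b y d N ≤
      TT b y d m + ((KK b y m : ℝ) ^ d - (KK b y n : ℝ) ^ d) := by
  have h1 := tail_sum (b := b) (y := y) d hm
  have h2 := rr_new (xx b y) d n m N0 h hnm
  rw [← KK_FS, ← KK_FS] at h2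
  have h3 : (∑ k ∈ Ioc N0 m, (rr (xx b y) d k : ℝ)) + (KK b y n : ℝ) ^ d ≤ (KK b y m : ℝ) ^ d := by
    exact_mod_cast h2
  have h4 := TT_nonneg hb hy0 hy1 d N0
  linarith

open Classical in
/-- sums over the positions from `N0` on -/
lemma block_sum2 (hb : 2 ≤ b) (hy0 : 0 < y) (hy1 : y < 1) (d : ℕ) (c : ℕ → ℤ)
    (hP : ∑ k ∈ range (d + 2 + 1), (c k : ℝ) * (1 + y) ^ k = 0) (hc : 0 < c (d + 2)) (W cW : ℕ)
    (hW : ∀ t : ℤ, (cW : ℤ) ≤ ∑ j ∈ range W,
      (((b : ℤ) ^ j * t - 1) % (c (d + 2) * ((d + 2).factorial : ℤ)) + 1)) (N0 Q : ℕ) :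
    (cW : ℝ) * Q ≤ ∑ N ∈ range (W * Q), (max (ZZ c (d + 2) (xx b y) b (N0 + N) : ℝ) 0 +
      cW * (if Dirty b y d (∑ k ∈ range (d + 2), |(c k : ℝ)|) (N0 + N) then 1 else 0)) := by
  induction Q with
  | zero => simp
  | succ Q ih =>
    rw [Nat.mul_succ, sum_range_add]
    push_cast
    have h1 : (cW : ℝ) ≤ ∑ j ∈ range W,
        (max (ZZ c (d + 2) (xx b y) b (N0 + (W * Q + j)) : ℝ) 0 +
        cW * (if Dirty b y d (∑ k ∈ range (d + 2), |(c k : ℝ)|) (N0 + (W * Q + j))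
          then 1 else 0)) := by
      have hnn : ∀ j ∈ range W, 0 ≤ (max (ZZ c (d + 2) (xx b y) b (N0 + (W * Q + j)) : ℝ) 0 +
          cW * (if Dirty b y d (∑ k ∈ range (d + 2), |(c k : ℝ)|) (N0 + (W * Q + j))
            then 1 else 0)) := by
        intro j _
        have h2 : (0 : ℝ) ≤ cW * (if Dirty b y d (∑ k ∈ range (d + 2), |(c k : ℝ)|)
          (N0 + (W * Q + j)) then 1 else 0) := by split_ifs <;> positivity
        have h3 : (0 : ℝ) ≤ max (ZZ c (d + 2) (xx b y) b (N0 + (W * Q + j)) : ℝ) 0 :=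
          le_max_right _ _
        linarith
      by_cases hd : ∃ j, j < W ∧ Dirty b y d (∑ k ∈ range (d + 2), |(c k : ℝ)|)
        (N0 + (W * Q + j))
      · obtain ⟨j, hj, hdj⟩ := hd
        refine le_trans ?_ (single_le_sum hnn (mem_range.mpr hj))
        rw [if_pos hdj]
        have h3 : (0 : ℝ) ≤ max (ZZ c (d + 2) (xx b y) b (N0 + (W * Q + j)) : ℝ) 0 :=
          le_max_right _ _
        linarith
      · push Not at hd
        have h2 := window d c hb hy0 hy1 hP hc W cW (N0 + W * Q) hW (by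
          intro j hj
          rw [add_assoc]
          exact hd j hj)
        have h3 : (cW : ℝ) ≤ ∑ j ∈ range W, (ZZ c (d + 2) (xx b y) b (N0 + W * Q + j) : ℝ) := by
          exact_mod_cast h2
        refine h3.trans (sum_le_sum fun j hj => ?_)
        rw [if_neg (hd j (mem_range.mp hj)), add_assoc]
        have := le_max_left (ZZ c (d + 2) (xx b y) b (N0 + (W * Q + j)) : ℝ) 0
        linarith
    linarith

end

end Pool.Agent.V11235.TP
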