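import Pool.Agent.V11235.TP.Bad
import Pool.Agent.H820R3.DG.Real

/-!
# Digit sums between two places: the main inequality
-/

set_option autoImplicit false

open Finset Polynomial

namespace Pool.Agent.V11235.TP

open Pool.Agent.H394R2.Ones
open Pool.Agent.H820R3.DG

/-! ### asymptotics -/

lemma pow_diff_le (x z : ℝ) (hz : 0 ≤ z) (hzx : z ≤ x) (k : ℕ) :
    x ^ (k + 1) - z ^ (k + 1) ≤ (k + 1) * ((x - z) * x ^ k) := by
  have hx : 0 ≤ x := hz.trans hzx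
  induction k with
  | zero => simp
  | succ k ih =>
    have h1 : z ^ (k + 1) ≤ x ^ (k + 1) := pow_le_pow_left₀ hz hzx _
    have h2 : x ^ (k + 1 + 1) - z ^ (k + 1 + 1) =
        x * (x ^ (k + 1) - z ^ (k + 1)) + (x - z) * z ^ (k + 1) := by ring
    have h3 := mul_le_mul_of_nonneg_left ih hx
    have h4 := mul_le_mul_of_nonneg_left h1 (sub_nonneg.mpr hzx)
    rw [h2]
    push_cast
    have h5 : x * ((k + 1) * ((x - z) * x ^ k)) + (x - z) * x ^ (k + 1) =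
        ((k : ℝ) + 1 + 1) * ((x - z) * x ^ (k + 1)) := by ring
    linarith

lemma pow_diff_ge (x z : ℝ) (hz : 0 ≤ z) (hzx : z ≤ x) (k : ℕ) :
    (x - z) * x ^ k ≤ x ^ (k + 1) - z ^ (k + 1) := by
  have h1 : z ^ k ≤ x ^ k := pow_le_pow_left₀ hz hzx _
  have h2 : x ^ (k + 1) - z ^ (k + 1) = (x - z) * x ^ k + z * (x ^ k - z ^ k) := by ring
  have h3 := mul_nonneg hz (sub_nonneg.mpr h1)
  linarith

lemma shift_diff (x z : ℝ) (hz : 1 ≤ z) (hzx : z ≤ x) (k : ℕ) :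
    x * ((x ^ (k + 1) - z ^ (k + 1)) - ((x - 1) ^ (k + 1) - (z - 1) ^ (k + 1))) ≤
      (k + 1) * k * ((x - z) * x ^ k) := by
  have hx : 1 ≤ x := hz.trans hzx
  have ht : 0 ≤ x - z := sub_nonneg.mpr hzx
  induction k with
  | zero => simp
  | succ k ih =>
    set E := (x ^ (k + 1) - z ^ (k + 1)) - ((x - 1) ^ (k + 1) - (z - 1) ^ (k + 1)) with hE
    have e1 : (x ^ (k + 1 + 1) - z ^ (k + 1 + 1)) - ((x - 1) ^ (k + 1 + 1) - (z - 1) ^ (k + 1 + 1))
        = (x - 1) * E + (x ^ (k + 1) - z ^ (k + 1)) +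
          (x - z) * (z ^ (k + 1) - (z - 1) ^ (k + 1)) := by
      rw [hE]; ring
    have h1 := pow_diff_le x z (by linarith) hzx k
    have h2 := pow_diff_le z (z - 1) (by linarith) (by linarith) k
    have h3 : z ^ k ≤ x ^ k := pow_le_pow_left₀ (by linarith) hzx _
    have hk : (0 : ℝ) ≤ k := Nat.cast_nonneg _
    have h4 : z ^ (k + 1) - (z - 1) ^ (k + 1) ≤ (k + 1) * x ^ k := by
      have : z - (z - 1) = 1 := by ring
      rw [this, one_mul] at h2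
      refine h2.trans (mul_le_mul_of_nonneg_left h3 (by linarith))
    have hp : 0 ≤ (x - z) * x ^ k := mul_nonneg ht (by positivity)
    rw [e1]
    have h5 : x * ((x - 1) * E) ≤ x * ((k + 1) * k * ((x - z) * x ^ k)) := by
      have h6 : (x - 1) * (x * E) ≤ (x - 1) * ((k + 1) * k * ((x - z) * x ^ k)) :=
        mul_le_mul_of_nonneg_left ih (by linarith)
      have h7 : 0 ≤ (k + 1) * k * ((x - z) * x ^ k) := by positivity
      calc x * ((x - 1) * E) = (x - 1) * (x * E) := by ring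
        _ ≤ (x - 1) * ((k + 1) * k * ((x - z) * x ^ k)) := h6
        _ ≤ x * ((k + 1) * k * ((x - z) * x ^ k)) := by nlinarith
    have h8 : x * (x ^ (k + 1) - z ^ (k + 1)) ≤ x * ((k + 1) * ((x - z) * x ^ k)) :=
      mul_le_mul_of_nonneg_left h1 (by linarith)
    have h9 : x * ((x - z) * (z ^ (k + 1) - (z - 1) ^ (k + 1))) ≤
        x * ((x - z) * ((k + 1) * x ^ k)) :=
      mul_le_mul_of_nonneg_left (mul_le_mul_of_nonneg_left h4 ht) (by linarith)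
    push_cast
    have e2 : ((k : ℝ) + 1 + 1) * (k + 1) * ((x - z) * x ^ (k + 1)) =
        x * ((k + 1) * k * ((x - z) * x ^ k)) + x * ((k + 1) * ((x - z) * x ^ k)) +
        x * ((x - z) * ((k + 1) * x ^ k)) := by ring
    rw [e2]
    linarith

/-- final asymptotics for two places -/
theorem asym2 (d : ℕ) (Kf : ℕ → ℝ) (hK1 : ∀ n, 1 ≤ Kf n) (hmono : Monotone Kf) (κ : ℝ)
    (hκ : 0 ≤ κ) (hgrow : ∃ c : ℝ, 0 < c ∧ ∃ m1 : ℕ, ∀ m : ℕ, m1 ≤ m → c * m ≤ Kf m ^ (d + 2))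
    (hdiff : ∀ R : ℝ, ∃ m1 : ℕ, ∀ m : ℕ, m1 ≤ m → ∀ n : ℕ, 2 * n ≤ m → R ≤ Kf m - Kf n)
    (h : ∀ δ : ℝ, 0 < δ → ∃ C : ℝ, 0 ≤ C ∧ ∀ n m : ℕ, (d + 2) * n ≤ m →
      κ * (m - (d + 2) * n) - δ * m ≤ (Kf m ^ (d + 2) - Kf n ^ (d + 2)) + C * Kf m ^ (d + 1) +
        C * (1 + Real.log ((m : ℝ) + 1)) * ((Kf m - Kf n) * Kf m ^ d + 1))
    (ε : ℝ) (hε : 0 < ε) :
    ∃ m0 : ℕ, ∀ m : ℕ, m0 ≤ m → ∀ n : ℕ, (d + 2) * n ≤ m →
      κ * (m - (d + 2) * n) - ε * m ≤ (Kf m - 1) ^ (d + 2) - (Kf n - 1) ^ (d + 2) := by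
  obtain ⟨C, hC, hCn⟩ := h (ε / 4) (by positivity)
  set η : ℝ := min (1 / 4) (ε / (12 * (κ + 1))) with hη
  have hη0 : 0 < η := by positivity
  have hη1 : η ≤ 1 / 4 := min_le_left _ _
  have hη2 : 6 * η * κ ≤ ε / 2 := by
    have h1 : η ≤ ε / (12 * (κ + 1)) := min_le_right _ _
    rw [le_div_iff₀ (by positivity)] at h1
    nlinarith
  obtain ⟨c, hc, m1, hm1⟩ := hgrow
  set c0 : ℝ := min c 1 with hc0
  have hc00 : 0 < c0 := by positivity
  obtain ⟨m2, hm2⟩ := hdiff (C / η)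
  obtain ⟨m3, hm3⟩ := (log_small d (min (η * c0 / (C + 1)) (ε / (4 * (C + 1))))
    (by positivity)).exists_forall_of_atTop
  obtain ⟨m4, hm4⟩ := exists_nat_ge ((((d : ℝ) + 2) ^ 2 / η) ^ (d + 2) / c)
  refine ⟨max (max m1 m2) (max (max m3 m4) 1), fun m hm n hn => ?_⟩
  have ha1 : m1 ≤ m := (le_max_left _ _).trans ((le_max_left _ _).trans hm)
  have ha2 : m2 ≤ m := (le_max_right _ _).trans ((le_max_left _ _).trans hm)
  have ha3 : m3 ≤ m := (le_max_left _ _).trans ((le_max_left _ _).trans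
    ((le_max_right _ _).trans hm))
  have ha4 : m4 ≤ m := (le_max_right _ _).trans ((le_max_left _ _).trans
    ((le_max_right _ _).trans hm))
  have ha5 : 1 ≤ m := (le_max_right _ _).trans ((le_max_right _ _).trans hm)
  have hmR : (1 : ℝ) ≤ m := by exact_mod_cast ha5
  have hm0 : (0 : ℝ) ≤ m := by linarith
  have hnm : n ≤ m := by nlinarith
  have h2n : 2 * n ≤ m := by
    have : (d + 2) * n = d * n + 2 * n := by ring
    have := Nat.zero_le (d * n)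
    omega
  set x := Kf m with hx
  set z := Kf n with hz
  have hx1 : 1 ≤ x := hK1 m
  have hz1 : 1 ≤ z := hK1 n
  have hzx : z ≤ x := hmono hnm
  set X := x ^ (d + 2) - z ^ (d + 2) with hX
  set ℓ := 1 + Real.log ((m : ℝ) + 1) with hℓ
  have hlog : 0 ≤ Real.log ((m : ℝ) + 1) := Real.log_nonneg (by linarith)
  have hℓ1 : 1 ≤ ℓ := by linarith
  set s : ℝ := (m : ℝ) ^ ((1 : ℝ) / (d + 2)) with hs
  have hs1 : 1 ≤ s := Real.one_le_rpow hmR (by positivity)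
  have hsn : s ^ (d + 2) = m := by
    rw [hs, ← Real.rpow_natCast, ← Real.rpow_mul hm0]
    push_cast
    rw [one_div, inv_mul_cancel₀ (by positivity), Real.rpow_one]
  have hsm : s ≤ m := by
    rw [← hsn]
    exact le_self_pow₀ hs1 (by omega)
  have hgr := hm1 m ha1
  -- lower bound for x
  have hxs : c0 * s ≤ x := by
    have h1 : (c0 * s) ^ (d + 2) ≤ x ^ (d + 2) := by
      rw [mul_pow, hsn]
      have h2 : c0 ^ (d + 2) ≤ c0 := pow_le_of_le_one hc00.le (min_le_right _ _) (by omega)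
      have h3 : c0 ≤ c := min_le_left _ _
      calc c0 ^ (d + 2) * m ≤ c * m := mul_le_mul_of_nonneg_right (h2.trans h3) hm0
        _ ≤ x ^ (d + 2) := hgr
    exact le_of_pow_le_pow_left₀ (by omega) (by linarith) h1
  have hlg := hm3 m ha3
  have hlg1 : C * ℓ ≤ η * x := by
    have h1 : ℓ ≤ η * c0 / (C + 1) * s :=
      hlg.trans (mul_le_mul_of_nonneg_right (min_le_left _ _) (by linarith))
    have h2 : (C + 1) * ℓ ≤ η * c0 * s := by
      rw [div_mul_eq_mul_div, le_div_iff₀ (by linarith)] at h1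
      linarith
    have h3 : η * (c0 * s) ≤ η * x := mul_le_mul_of_nonneg_left hxs hη0.le
    nlinarith
  have hlg2 : C * ℓ ≤ ε / 4 * m := by
    have h1 : ℓ ≤ ε / (4 * (C + 1)) * s :=
      hlg.trans (mul_le_mul_of_nonneg_right (min_le_right _ _) (by linarith))
    have h2 : 4 * ((C + 1) * ℓ) ≤ ε * s := by
      rw [div_mul_eq_mul_div, le_div_iff₀ (by linarith)] at h1
      linarith
    have h3 : ε * s ≤ ε * m := mul_le_mul_of_nonneg_left hsm hε.le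
    nlinarith
  have ht0 : 0 ≤ x - z := sub_nonneg.mpr hzx
  have hXge := pow_diff_ge x z (by linarith) hzx (d + 1)
  rw [show d + 1 + 1 = d + 2 from rfl, ← hX] at hXge
  have hX0 : 0 ≤ X := le_trans (mul_nonneg ht0 (by positivity)) hXge
  -- (i)
  have hi : C * x ^ (d + 1) ≤ η * X := by
    have h1 := hm2 m ha2 n h2n
    rw [← hx, ← hz, div_le_iff₀ hη0] at h1
    have h2 : C * x ^ (d + 1) ≤ (x - z) * η * x ^ (d + 1) :=
      mul_le_mul_of_nonneg_right h1 (by positivity)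
    have h3 : (x - z) * η * x ^ (d + 1) = η * ((x - z) * x ^ (d + 1)) := by ring
    have h4 := mul_le_mul_of_nonneg_left hXge hη0.le
    linarith
  -- (ii)
  have hii : C * ℓ * ((x - z) * x ^ d) ≤ η * X := by
    have h1 : C * ℓ * ((x - z) * x ^ d) ≤ η * x * ((x - z) * x ^ d) :=
      mul_le_mul_of_nonneg_right hlg1 (mul_nonneg ht0 (by positivity))
    have h2 : η * x * ((x - z) * x ^ d) = η * ((x - z) * x ^ (d + 1)) := by ring
    have h4 := mul_le_mul_of_nonneg_left hXge hη0.le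
    linarith
  -- (iv)
  set Y := (x - 1) ^ (d + 2) - (z - 1) ^ (d + 2) with hY
  have hiv : X - Y ≤ η * X := by
    have h1 := shift_diff x z hz1 hzx (d + 1)
    rw [show d + 1 + 1 = d + 2 from rfl, ← hX, ← hY] at h1
    push_cast at h1
    have hxbig : ((d : ℝ) + 2) ^ 2 / η ≤ x := by
      have h2 : (((d : ℝ) + 2) ^ 2 / η) ^ (d + 2) ≤ x ^ (d + 2) := by
        have h3 : (((d : ℝ) + 2) ^ 2 / η) ^ (d + 2) / c ≤ m :=
          hm4.trans (by exact_mod_cast ha4)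
        rw [div_le_iff₀ hc] at h3
        linarith
      exact le_of_pow_le_pow_left₀ (by omega) (by linarith) h2
    rw [div_le_iff₀ hη0] at hxbig
    have hd0 : (0 : ℝ) ≤ d := Nat.cast_nonneg _
    have h4 : x * (X - Y) ≤ ((d : ℝ) + 2) ^ 2 * X := by
      have h5 : ((d : ℝ) + 1 + 1) * (d + 1) * ((x - z) * x ^ (d + 1)) ≤
          ((d : ℝ) + 1 + 1) * (d + 1) * X := mul_le_mul_of_nonneg_left hXge (by positivity)
      have h6 : ((d : ℝ) + 1 + 1) * (d + 1) * X ≤ ((d : ℝ) + 2) ^ 2 * X := by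
        apply mul_le_mul_of_nonneg_right _ hX0
        nlinarith
      linarith
    have h7 : x * (X - Y) ≤ x * (η * X) := by
      have h8 := mul_le_mul_of_nonneg_right hxbig hX0
      calc x * (X - Y) ≤ ((d : ℝ) + 2) ^ 2 * X := h4
        _ ≤ x * η * X := h8
        _ = x * (η * X) := by ring
    exact le_of_mul_le_mul_left h7 (by linarith)
  have hmain := hCn n m hn
  rw [← hx, ← hz, ← hX, ← hℓ] at hmain
  have hfin : κ * (m - (d + 2) * n) - ε / 2 * m ≤ (1 + 2 * η) * X := by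
    have e1 : C * ℓ * ((x - z) * x ^ d + 1) = C * ℓ * ((x - z) * x ^ d) + C * ℓ := by ring
    rw [e1] at hmain
    nlinarith
  have hnn : (0 : ℝ) ≤ ((d : ℝ) + 2) * n := by positivity
  rcases le_or_gt (2 * κ * m) X with hcase | hcase
  · have h1 : κ * (m - (d + 2) * n) - ε * m ≤ κ * m := by
      have := mul_nonneg hκ hnn
      nlinarith
    have h2 : 3 / 4 * X ≤ Y := by nlinarith
    have h3 : 3 / 4 * (2 * κ * m) ≤ 3 / 4 * X := by linarith
    have h4 : 0 ≤ κ * m := mul_nonneg hκ hm0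
    linarith
  · have h1 : 3 * η * X ≤ 3 * η * (2 * κ * m) := mul_le_mul_of_nonneg_left hcase.le (by positivity)
    have h2 : 3 * η * (2 * κ * m) = 6 * η * κ * m := by ring
    have h3 : 6 * η * κ * m ≤ ε / 2 * m := mul_le_mul_of_nonneg_right hη2 hm0
    linarith

section
variable {b : ℕ} {y : ℝ}

/-- many nonzero digits between `L` and `(1 + η) L` -/
lemma many (hb : 2 ≤ b) (hy0 : 0 < y) (halg : IsAlgebraic ℚ y)
    (hirr : Irrational y) (R : ℕ) : ∀ η : ℝ, 0 < η → ∃ L0 : ℕ, ∀ L : ℕ, L0 ≤ L → ∀ M : ℕ,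
      (1 + η) * L ≤ M → KK b y L + R ≤ KK b y M := by
  induction R with
  | zero =>
    intro η hη
    refine ⟨0, fun L _ M hM => ?_⟩
    rw [add_zero]
    apply KK_mono
    have : (L : ℝ) ≤ M := by
      have : (0 : ℝ) ≤ L := Nat.cast_nonneg _
      nlinarith
    exact_mod_cast this
  | succ R ih =>
    intro η hη
    set δ : ℝ := min η 1 with hδ
    have hδ0 : 0 < δ := by positivity
    have hδ1 : δ ≤ 1 := min_le_right _ _
    have hδη : δ ≤ η := min_le_left _ _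
    obtain ⟨L1, h1⟩ := ih (δ / 4) (by positivity)
    obtain ⟨L2, h2⟩ := gap hb hy0 halg hirr (δ / 4) (by positivity) (by linarith)
    obtain ⟨L3, h3⟩ := exists_nat_ge (8 / δ)
    refine ⟨max L1 (max L2 L3), fun L hL M hM => ?_⟩
    have hL1 : L1 ≤ L := (le_max_left _ _).trans hL
    have hL2 : L2 ≤ L := (le_max_left _ _).trans ((le_max_right _ _).trans hL)
    have hL3 : L3 ≤ L := (le_max_right _ _).trans ((le_max_right _ _).trans hL)
    have hLR : (0 : ℝ) ≤ L := Nat.cast_nonneg _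
    have hL8 : 8 ≤ δ * L := by
      have h4 : 8 / δ ≤ L := h3.trans (by exact_mod_cast hL3)
      rw [div_le_iff₀ hδ0] at h4
      linarith
    set L' : ℕ := ⌈(1 + δ / 4) * (L : ℝ)⌉₊ with hL'
    have hL'1 : (1 + δ / 4) * (L : ℝ) ≤ L' := Nat.le_ceil _
    have hL'2 : (L' : ℝ) < (1 + δ / 4) * L + 1 := Nat.ceil_lt_add_one (by positivity)
    have hL'3 : L ≤ L' := by
      have : (L : ℝ) ≤ L' := by nlinarith
      exact_mod_cast this
    have h5 := h1 L hL1 L' hL'1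
    obtain ⟨k, hk1, hk2, hk3⟩ := h2 L' (hL2.trans hL'3)
    have hkM : k ≤ M := by
      have : (k : ℝ) ≤ M := by
        have e1 : (k : ℝ) ≤ (1 + δ / 4) * L' + 1 := by linarith
        have e2 : (1 + δ / 4) * (L' : ℝ) ≤ (1 + δ / 4) * ((1 + δ / 4) * L + 1) :=
          mul_le_mul_of_nonneg_left hL'2.le (by positivity)
        have e3 : (1 + δ / 4) * ((1 + δ / 4) * L + 1) + 1 ≤ (1 + δ) * L := by
          have : (1 + δ / 4) * ((1 + δ / 4) * L + 1) + 1 =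
            (1 + δ / 2) * L + δ / 16 * (δ * L) + δ / 4 + 2 := by ring
          rw [this]
          nlinarith
        have e4 : (1 + δ) * (L : ℝ) ≤ (1 + η) * L := mul_le_mul_of_nonneg_right (by linarith) hLR
        linarith
      exact_mod_cast this
    have h6 : KK b y L' + 1 ≤ KK b y k := by
      rw [KK_FS, KK_FS]
      have h7 := FS_Ioc (xx b y) hk1.le
      have h8 : xx b y k ≤ ∑ i ∈ Ioc L' k, xx b y i :=
        single_le_sum (f := fun i => xx b y i) (fun _ _ => Nat.zero_le _)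
          (mem_Ioc.mpr ⟨hk1, le_rfl⟩)
      have h9 : xx b y k = x b y k := by
        obtain ⟨j, rfl⟩ : ∃ j, k = j + 1 := ⟨k - 1, by omega⟩
        exact xx_succ j
      omega
    have h7 : KK b y k ≤ KK b y M := KK_mono hkM
    omega

/-- the growth of the number of nonzero digits -/
lemma diff_large (hb : 2 ≤ b) (hy0 : 0 < y) (halg : IsAlgebraic ℚ y)
    (hirr : Irrational y) (R : ℝ) : ∃ m1 : ℕ, ∀ m : ℕ, m1 ≤ m → ∀ n : ℕ, 2 * n ≤ m →
      R ≤ (KK b y m : ℝ) - KK b y n := by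
  obtain ⟨R', hR'⟩ := exists_nat_ge R
  obtain ⟨L0, h⟩ := many hb hy0 halg hirr R' (1 / 2) (by norm_num)
  refine ⟨2 * L0 + 2, fun m hm n hn => ?_⟩
  have h1 := h (m / 2) (by omega) m (by
    have : ((m / 2 : ℕ) : ℝ) ≤ m / 2 := Nat.cast_div_le
    have h2 : (0 : ℝ) ≤ m := Nat.cast_nonneg _
    linarith)
  have h2 : KK b y n ≤ KK b y (m / 2) := KK_mono (by omega)
  have h3 : ((KK b y n : ℕ) : ℝ) + R' ≤ KK b y m := by exact_mod_cast (by omega :
    KK b y n + R' ≤ KK b y m)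
  linarith

/-- the main inequality -/
theorem two_main (hFact : FactStmt) (hb : 2 ≤ b) (hy0 : 0 < y) (hy1 : y < 1)
    (halg : IsAlgebraic ℚ y) (hirr : Irrational y) (d : ℕ) (c : ℕ → ℤ)
    (hP : ∑ k ∈ range (d + 2 + 1), (c k : ℝ) * (1 + y) ^ k = 0) (hc : 0 < c (d + 2)) (W cW : ℕ)
    (hW0 : 1 ≤ W) (hW : ∀ t : ℤ, (cW : ℤ) ≤ ∑ j ∈ range W,
      (((b : ℤ) ^ j * t - 1) % (c (d + 2) * ((d + 2).factorial : ℤ)) + 1)) (δ : ℝ) (hδ : 0 < δ) :
    ∃ C : ℝ, 0 ≤ C ∧ ∀ n m : ℕ, (d + 2) * n ≤ m →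
      ((b : ℝ) - 1) * cW / (W * c (d + 2)) * (m - (d + 2) * n) - δ * m ≤
        ((KK b y m : ℝ) ^ (d + 2) - (KK b y n : ℝ) ^ (d + 2)) + C * (KK b y m : ℝ) ^ (d + 1) +
        C * (1 + Real.log ((m : ℝ) + 1)) *
          (((KK b y m : ℝ) - KK b y n) * (KK b y m : ℝ) ^ d + 1) := by
  classical
  have hb2 : (2 : ℝ) ≤ b := by exact_mod_cast hb
  have ha1 : (1 : ℝ) ≤ c (d + 2) := by exact_mod_cast hc
  have hWR : (1 : ℝ) ≤ W := by exact_mod_cast hW0
  have hcW : (0 : ℝ) ≤ cW := Nat.cast_nonneg _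
  set a : ℝ := ((c (d + 2) : ℤ) : ℝ) with ha
  set c' : ℝ := ∑ k ∈ range (d + 2), |(c k : ℝ)| with hc'
  have hc'0 : 0 ≤ c' := sum_nonneg fun _ _ => abs_nonneg _
  have hKK1 : ∀ n, (1 : ℝ) ≤ KK b y n := fun n => by exact_mod_cast KK_pos hy0 hy1 n
  set δ1 : ℝ := δ * a / (((b : ℝ) - 1) * (cW + 1)) with hδ1
  have hb1 : 0 < (b : ℝ) - 1 := by linarith
  have hδ10 : 0 < δ1 := by positivity
  obtain ⟨C, hC, hCn⟩ := dirty_loc hFact hb hy0 hy1 halg hirr d c' δ1 hδ10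
  set Ct : ℝ := 3 ^ (d + 2) + c' * (3 ^ (d + 1) + 1) + ((b : ℝ) - 1) * cW * C +
    ((b : ℝ) - 1) * cW with hCt
  refine ⟨Ct, by positivity, fun n m hnm => ?_⟩
  have hnm' : n ≤ m := by nlinarith
  set x : ℝ := (KK b y m : ℝ) with hx
  set z : ℝ := (KK b y n : ℝ) with hz
  have hx1 : 1 ≤ x := hKK1 m
  have hz1 : 1 ≤ z := hKK1 n
  have hzx : z ≤ x := Nat.cast_le.mpr (KK_mono hnm')
  have hℓ : 0 ≤ Real.log ((m : ℝ) + 1) := Real.log_nonneg (by
    have : (0 : ℝ) ≤ m := Nat.cast_nonneg _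
    linarith)
  set ℓ := 1 + Real.log ((m : ℝ) + 1) with hℓdef
  have hm0 : (0 : ℝ) ≤ m := Nat.cast_nonneg _
  set N0 : ℕ := (d + 2) * n with hN0
  -- blocks
  set Lr : ℝ := (m : ℝ) - (d + 2) * n with hLr
  have hLcast : ((m - N0 : ℕ) : ℝ) = Lr := by
    rw [Nat.cast_sub hnm, hN0, hLr]; push_cast; ring
  set Q : ℕ := (m - N0) / W with hQ
  have hWQ : W * Q ≤ m - N0 := Nat.mul_div_le _ W
  have hQ2 : m - N0 < W * (Q + 1) := by
    have := Nat.lt_mul_div_succ (m - N0) (show 0 < W by omega)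
    simpa [hQ, Nat.succ_eq_add_one] using this
  have hQ3 : Lr / W - 1 ≤ Q := by
    have h1 : Lr < W * (Q + 1) := by rw [← hLcast]; exact_mod_cast hQ2
    have h2 : Lr / W < Q + 1 := by rw [div_lt_iff₀ (by linarith)]; linarith
    linarith
  have h1 := block_sum2 hb hy0 hy1 d c hP hc W cW hW N0 Q
  have h2 : ∑ N ∈ range (W * Q), (max (ZZ c (d + 2) (xx b y) b (N0 + N) : ℝ) 0 +
      cW * (if Dirty b y d c' (N0 + N) then 1 else 0)) ≤
      ∑ N ∈ Ico N0 m, (a * TT b y (d + 2) N + c' * TT b y (d + 1) N +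
        cW * (if Dirty b y d c' N then 1 else 0)) := by
    have h3 : ∀ N, max (ZZ c (d + 2) (xx b y) b N : ℝ) 0 ≤
        a * TT b y (d + 2) N + c' * TT b y (d + 1) N := by
      intro N
      apply max_le (ZZ_le hb hy0 hy1 d c hP N)
      have e1 := TT_nonneg hb hy0 hy1 (d + 2) N
      have e2 := TT_nonneg hb hy0 hy1 (d + 1) N
      positivity
    rw [sum_Ico_eq_sum_range]
    refine (sum_le_sum fun N _ => add_le_add (h3 (N0 + N)) le_rfl).trans ?_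
    refine sum_le_sum_of_subset_of_nonneg (range_mono hWQ) fun N _ _ => ?_
    have e1 := TT_nonneg hb hy0 hy1 (d + 2) (N0 + N)
    have e2 := TT_nonneg hb hy0 hy1 (d + 1) (N0 + N)
    have e3 : (0 : ℝ) ≤ if Dirty b y d c' (N0 + N) then 1 else 0 := by split_ifs <;> norm_num
    positivity
  have h1' := h1.trans h2
  simp only [sum_add_distrib, ← mul_sum] at h1'
  have h3 : (∑ N ∈ Ico N0 m, (if Dirty b y d c' N then (1 : ℝ) else 0)) =
      (((Ico N0 m).filter (Dirty b y d c')).card : ℝ) := by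
    rw [card_filter]; push_cast; rfl
  rw [h3] at h1'
  have h4 := tail_le hb hy0 hy1 (d + 2) (N0 := N0) le_rfl hnm' hnm
  have h5 := tail_le hb hy0 hy1 (d + 1) (N0 := N0) (Nat.mul_le_mul (by omega) le_rfl) hnm' hnm
  have h6 := TT_upper hb hy0 hy1 (d + 1) m
  have h7 := TT_upper hb hy0 hy1 d m
  rw [← hx] at h4 h5 h6 h7
  rw [← hz] at h4 h5
  have hp1 : x ^ d ≤ x ^ (d + 1) := pow_le_pow_right₀ hx1 (Nat.le_succ d)
  have hKp : 1 ≤ x ^ (d + 1) := one_le_pow₀ hx1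
  have hzp : 0 ≤ z ^ (d + 1) := by positivity
  have h8 : ((b : ℝ) - 1) * ∑ N ∈ Ico N0 m, TT b y (d + 1) N ≤
      (3 ^ (d + 1) + 1) * x ^ (d + 1) := by
    have h9 : (3 : ℝ) ^ (d + 1) * x ^ d ≤ 3 ^ (d + 1) * x ^ (d + 1) :=
      mul_le_mul_of_nonneg_left hp1 (by positivity)
    linarith
  set Xd : ℝ := x ^ (d + 2) - z ^ (d + 2) with hXd
  have h9 : ((b : ℝ) - 1) * ∑ N ∈ Ico N0 m, TT b y (d + 2) N ≤
      3 ^ (d + 2) * x ^ (d + 1) + Xd := by linarith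
  have h10 := hCn n m N0 le_rfl hnm' hnm
  rw [← hx, ← hz, ← hℓdef] at h10
  set B : ℝ := (x - z) * x ^ d + 1 with hB
  have hB1 : 1 ≤ B := by
    have : 0 ≤ (x - z) * x ^ d := mul_nonneg (by linarith) (by positivity)
    linarith
  -- combine
  have h11 : ((b : ℝ) - 1) * (cW * (Lr / W - 1)) ≤
      a * (3 ^ (d + 2) * x ^ (d + 1) + Xd) + c' * ((3 ^ (d + 1) + 1) * x ^ (d + 1)) +
      ((b : ℝ) - 1) * (cW * (C * ℓ * B + δ1 * m)) := by
    have e1 : (cW : ℝ) * (Lr / W - 1) ≤ cW * Q := mul_le_mul_of_nonneg_left hQ3 hcW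
    have e2 := mul_le_mul_of_nonneg_left (e1.trans h1') hb1.le
    have e3 := mul_le_mul_of_nonneg_left h9 (by linarith : 0 ≤ a)
    have e4 := mul_le_mul_of_nonneg_left h8 hc'0
    have e5 := mul_le_mul_of_nonneg_left (mul_le_mul_of_nonneg_left h10 hcW) hb1.le
    linarith
  have h12 : ((b : ℝ) - 1) * (cW * (δ1 * m)) ≤ δ * a * m := by
    have e1 : ((b : ℝ) - 1) * (cW * (δ1 * m)) = δ * a * m * (cW / (cW + 1)) := by
      rw [hδ1]; field_simp
    rw [e1]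
    have e2 : (cW : ℝ) / (cW + 1) ≤ 1 := by rw [div_le_one (by linarith)]; linarith
    have e3 : 0 ≤ δ * a * m := by positivity
    nlinarith
  have h13 : ((b : ℝ) - 1) * cW / (W * a) * Lr * a = ((b : ℝ) - 1) * (cW * (Lr / W)) := by
    field_simp
  have h14 : c' * ((3 ^ (d + 1) + 1) * x ^ (d + 1)) ≤
      a * (c' * (3 ^ (d + 1) + 1) * x ^ (d + 1)) := by
    have : 0 ≤ c' * (3 ^ (d + 1) + 1) * x ^ (d + 1) := by positivity
    nlinarith
  have h15 : ((b : ℝ) - 1) * (cW * (C * ℓ * B)) ≤ a * (((b : ℝ) - 1) * cW * C * (ℓ * B)) := by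
    have : 0 ≤ ((b : ℝ) - 1) * cW * C * (ℓ * B) := by positivity
    nlinarith
  have h16 : ((b : ℝ) - 1) * cW ≤ a * (((b : ℝ) - 1) * cW * x ^ (d + 1)) := by
    have e1 : 0 ≤ ((b : ℝ) - 1) * cW := by positivity
    have e2 : ((b : ℝ) - 1) * cW * 1 ≤ ((b : ℝ) - 1) * cW * x ^ (d + 1) :=
      mul_le_mul_of_nonneg_left hKp e1
    nlinarith
  have h17 : 3 ^ (d + 2) * x ^ (d + 1) + c' * (3 ^ (d + 1) + 1) * x ^ (d + 1) +
      ((b : ℝ) - 1) * cW * C * (ℓ * B) + ((b : ℝ) - 1) * cW * x ^ (d + 1) ≤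
      Ct * x ^ (d + 1) + Ct * ℓ * B := by
    have e1 : 3 ^ (d + 2) * x ^ (d + 1) + c' * (3 ^ (d + 1) + 1) * x ^ (d + 1) +
      ((b : ℝ) - 1) * cW * x ^ (d + 1) ≤ Ct * x ^ (d + 1) := by
      have e2 : Ct * x ^ (d + 1) = 3 ^ (d + 2) * x ^ (d + 1) +
        c' * (3 ^ (d + 1) + 1) * x ^ (d + 1) + ((b : ℝ) - 1) * cW * x ^ (d + 1) +
        ((b : ℝ) - 1) * cW * C * x ^ (d + 1) := by rw [hCt]; ring
      have e3 : 0 ≤ ((b : ℝ) - 1) * cW * C * x ^ (d + 1) := by positivity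
      linarith
    have e4 : ((b : ℝ) - 1) * cW * C * (ℓ * B) ≤ Ct * ℓ * B := by
      have e5 : Ct * ℓ * B = ((b : ℝ) - 1) * cW * C * (ℓ * B) +
        (3 ^ (d + 2) + c' * (3 ^ (d + 1) + 1) + ((b : ℝ) - 1) * cW) * (ℓ * B) := by
        rw [hCt]; ring
      have e6 : 0 ≤ (3 ^ (d + 2) + c' * (3 ^ (d + 1) + 1) + ((b : ℝ) - 1) * cW) * (ℓ * B) := by
        positivity
      linarith
    linarith
  have h18 : (((b : ℝ) - 1) * cW / (W * a) * Lr - δ * m) * a ≤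
      (Xd + Ct * x ^ (d + 1) + Ct * ℓ * B) * a := by
    have e1 : (((b : ℝ) - 1) * cW / (W * a) * Lr - δ * m) * a =
      ((b : ℝ) - 1) * (cW * (Lr / W)) - δ * a * m := by
      rw [sub_mul, h13]; ring
    rw [e1]
    have e2 := mul_le_mul_of_nonneg_left h17 (by linarith : 0 ≤ a)
    nlinarith
  exact le_of_mul_le_mul_right h18 (by linarith)

/-- two places, `0 < y < 1` -/
theorem two_places (hb : 2 ≤ b) (hy0 : 0 < y) (hy1 : y < 1)
    (halg : IsAlgebraic ℚ y) (hirr : Irrational y) (d : ℕ) (c : ℕ → ℤ)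
    (hP : ∑ k ∈ range (d + 2 + 1), (c k : ℝ) * (1 + y) ^ k = 0) (hc : 0 < c (d + 2)) (W cW : ℕ)
    (hW0 : 1 ≤ W) (hW : ∀ t : ℤ, (cW : ℤ) ≤ ∑ j ∈ range W,
      (((b : ℤ) ^ j * t - 1) % (c (d + 2) * ((d + 2).factorial : ℤ)) + 1)) (ε : ℝ) (hε : 0 < ε) :
    ∃ m0 : ℕ, ∀ m : ℕ, m0 ≤ m → ∀ n : ℕ, n ≤ m →
      ((b : ℝ) - 1) * cW / (W * c (d + 2)) * (m - (d + 2) * n) - ε * m ≤
        (K b y m : ℝ) ^ (d + 2) - (K b y n : ℝ) ^ (d + 2) := by
  have hb2 : (2 : ℝ) ≤ b := by exact_mod_cast hb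
  have hb1 : 0 < (b : ℝ) - 1 := by linarith
  have ha1 : (1 : ℝ) ≤ c (d + 2) := by exact_mod_cast hc
  have hWR : (1 : ℝ) ≤ W := by exact_mod_cast hW0
  have hcW : (0 : ℝ) ≤ cW := Nat.cast_nonneg _
  have hKKK : ∀ n, ((KK b y n : ℕ) : ℝ) - 1 = K b y n := by
    intro n
    rw [KK_eq hy0 hy1]; push_cast; ring
  set κ : ℝ := ((b : ℝ) - 1) * cW / (W * c (d + 2)) with hκ
  have hκ0 : 0 ≤ κ := by positivity
  have hgrow : ∃ c1 : ℝ, 0 < c1 ∧ ∃ m1 : ℕ, ∀ m : ℕ, m1 ≤ m →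
      c1 * m ≤ ((KK b y m : ℕ) : ℝ) ^ (d + 2) := by
    set κ1 : ℝ := ((b : ℝ) - 1) * ((1 : ℕ) : ℝ) / (((1 : ℕ) : ℝ) * c (d + 2)) with hκ1
    have hκ10 : 0 < κ1 := by
      rw [hκ1]; push_cast; positivity
    obtain ⟨m1, hm1⟩ := deg_main Pool.Agent.H726R3.FactDvd.factStmt hb hy0 hy1 halg hirr d c hP
      hc 1 1 le_rfl (by
        intro t
        rw [sum_range_one]
        have : 0 ≤ (((b : ℤ) ^ 0 * t - 1) % (c (d + 2) * ((d + 2).factorial : ℤ))) :=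
          Int.emod_nonneg _ (mul_pos hc (by exact_mod_cast Nat.factorial_pos _)).ne'
        push_cast
        linarith) (κ1 / 2) (by positivity)
    refine ⟨κ1 / 2, by positivity, m1, fun m hm => ?_⟩
    have h1 := hm1 m hm
    have h2 : (K b y m : ℝ) ^ (d + 2) ≤ ((KK b y m : ℕ) : ℝ) ^ (d + 2) := by
      apply pow_le_pow_left₀ (Nat.cast_nonneg _)
      have := hKKK m
      linarith
    have h3 : κ1 - κ1 / 2 = κ1 / 2 := by ring
    rw [← hκ1, h3] at h1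
    linarith
  obtain ⟨m0, hm0⟩ := asym2 d (fun n => ((KK b y n : ℕ) : ℝ))
    (fun n => by exact_mod_cast KK_pos hy0 hy1 n)
    (fun _ _ h => Nat.cast_le.mpr (KK_mono h)) κ hκ0 hgrow
    (diff_large hb hy0 halg hirr)
    (fun δ hδ => two_main Pool.Agent.H726R3.FactDvd.factStmt hb hy0 hy1 halg hirr d c hP hc W cW
      hW0 hW δ hδ) ε hε
  refine ⟨m0, fun m hm n hnm => ?_⟩
  rcases le_or_gt ((d + 2) * n) m with h | h
  · have h1 := hm0 m hm n h
    simp only [hKKK] at h1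
    exact h1
  · have h1 : (m : ℝ) < (d + 2) * n := by exact_mod_cast h
    have h2 : κ * (m - (d + 2) * n) ≤ 0 := mul_nonpos_of_nonneg_of_nonpos hκ0 (by linarith)
    have h3 : (K b y n : ℝ) ^ (d + 2) ≤ (K b y m : ℝ) ^ (d + 2) := by
      apply pow_le_pow_left₀ (Nat.cast_nonneg _)
      have h4 : ((KK b y n : ℕ) : ℝ) ≤ KK b y m := by exact_mod_cast KK_mono hnm
      rw [← hKKK, ← hKKK]
      linarith
    have h5 : 0 ≤ ε * m := by positivity
    linarith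

end

end Pool.Agent.V11235.TP
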